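import Mathlib

namespace Pool.Agent.MP_8e55f0_lc

/-- a word is rich if it has exactly `|u| + 1` distinct palindromic factors
(the empty word included) -/
def Rich {α : Type} (u : List α) : Prop :=
  {v : List α | v <:+: u ∧ v.reverse = v}.ncard = u.length + 1

/-- the finite two-dimensional word `w` (list of non-empty cells with their letters) can be
extended to a rich plane over its own alphabet -/
def Extendable (w : List ((ℤ × ℤ) × ℕ)) : Prop :=
  ∃ W : ℤ × ℤ → ℕ, (∀ x ∈ w, W x.1 = x.2) ∧ (∀ c, W c ∈ w.map Prod.snd) ∧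
    ∀ (i j : ℤ) (n : ℕ),
      Rich ((List.range (n + 1)).map fun k : ℕ => W (i, j + k)) ∧
      Rich ((List.range (n + 1)).map fun k : ℕ => W (i + k, j))

end Pool.Agent.MP_8e55f0_lc
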